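import Pool.Agent.H8.AV3.Stmts4

/-!
# BXE and WUG3: the denominators depend only on the curve; the weighted counting inequality
-/

set_option autoImplicit false

namespace Pool.Agent.H60.AV3B

open Polynomial Matrix Pool.AVR Pool.AV3

/-- The image of a translated triple modulo a polynomial. -/
theorem md3_sh {F : Type} [Field F] (M p : F[X]) (f : F[X] × F[X] × F[X]) :
    md3 M (sh p f) = sh (AdjoinRoot.mk M p) (md3 M f) := by
  simp only [md3, sh, map_add, map_mul, map_pow, map_ofNat]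

/-- The denominators are invariant under translations. -/
theorem Bx_sh (hNSH : Pool.AV3.NSHStmt) {F : Type} [Field F] (P p : F[X]) (N : ℕ)
    (f : F[X] × F[X] × F[X]) : Bx P N (sh p f) = Bx P N f := by
  unfold Bx Bw
  rw [dsc_sh, md3_sh, hNSH]

theorem bxe_thm (hNSH : Pool.AV3.NSHStmt) (hJIN : Pool.AV3.JINStmt) : Pool.AV3.BXEStmt := by
  intro F _ _ h2 n α β N _ _ f hf c hc
  obtain ⟨hcV, p, hp⟩ := hc
  obtain ⟨hJ1, hJ2⟩ := hJIN F h2 n
  obtain ⟨hfam, hinf⟩ := hJ1 α β c hcV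
  refine ⟨fun P => ?_, ?_⟩
  · rw [hp, Bx_sh hNSH]
  · rw [hinf, hp]
    rw [hp] at hfam
    rw [(hJ2 p f hf.1 hfam).2, Bx_sh hNSH]

theorem card_gt {F : Type} [Field F] [Finite F] (P : F[X]) (hm : P.Monic) (hi : Irreducible P) :
    (1 : ℝ) < Nat.card (AdjoinRoot P) := by
  have : Fact (Irreducible P) := ⟨hi⟩
  have : Module.Finite F (AdjoinRoot P) := hm.finite_adjoinRoot
  have : Finite (AdjoinRoot P) := Module.finite_of_finite F
  have h1 : 1 < Nat.card (AdjoinRoot P) := Finite.one_lt_card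
  exact_mod_cast h1

theorem Bx_pos {F : Type} [Field F] [Finite F] (P : F[X]) (hm : P.Monic) (hi : Irreducible P)
    (N : ℕ) (f : F[X] × F[X] × F[X]) : 0 < Bx P N f := by
  have h1 := card_gt P hm hi
  unfold Bx Bw
  split_ifs
  · linarith
  · apply mul_pos (by linarith)
    positivity

open Classical in
theorem wug3_thm (hWCT : Pool.AV3.WCTStmt) (hBXE : Pool.AV3.BXEStmt) : Pool.AV3.WUG3Stmt := by
  intro F _ _ h2 n N s S f hf hN hS hst
  obtain ⟨hfin, hle⟩ := hWCT F h2 n N s S f hf hN hS hst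
  refine ⟨hfin, ?_⟩
  set B : ℝ := (∏ P ∈ S, Bx P N f) * Bx X N (AVS.finf n f) with hB
  have hBpos : 0 < B := by
    apply mul_pos
    · exact Finset.prod_pos fun P hP => Bx_pos P (hS P hP).1 (hS P hP).2 N f
    · exact Bx_pos X monic_X irreducible_X N _
  have key : ∀ α ∈ Finset.range (n + 1), ∀ β ∈ Finset.range (n + 1),
      (∑ᶠ c ∈ VJ n (dv α β) f, WB3 n α β S N c) /
          (G3 (dv α β) : Set (Matrix (Fin 3) (Fin 3) F[X])).ncard =
      B⁻¹ * ((∑ᶠ c ∈ VJ n (dv α β) f, (∏ P ∈ S, (gdk (md P c) : ℝ)) *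
          gdk (md X (cinf n (dv α β) c))) /
          (G3 (dv α β) : Set (Matrix (Fin 3) (Fin 3) F[X])).ncard) := by
    intro α hα β hβ
    rw [← mul_div_assoc]
    apply congrArg (fun x : ℝ => x / ((G3 (dv α β) :
      Set (Matrix (Fin 3) (Fin 3) F[X])).ncard : ℝ))
    have e1 : ∀ c : Fin 10 → F[X], (∑ᶠ (_ : c ∈ VJ n (dv α β) f), WB3 n α β S N c) =
        B⁻¹ • (∑ᶠ (_ : c ∈ VJ n (dv α β) f), (∏ P ∈ S, (gdk (md P c) : ℝ)) *
          (gdk (md X (cinf n (dv α β) c)) : ℝ)) := by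
      intro c
      by_cases hc : c ∈ VJ n (dv α β) f
      · rw [finsum_eq_if, finsum_eq_if, if_pos hc, if_pos hc]
        obtain ⟨hx, hy⟩ := hBXE F h2 n α β N (Nat.lt_succ_iff.mp (Finset.mem_range.mp hα))
          (Nat.lt_succ_iff.mp (Finset.mem_range.mp hβ)) f hf.1 c hc
        unfold WB3 wb
        rw [hy, Finset.prod_congr rfl fun P _ => by rw [hx P], Finset.prod_div_distrib, hB,
          smul_eq_mul, div_mul_div_comm, div_eq_inv_mul]
      · rw [finsum_eq_if, finsum_eq_if, if_neg hc, if_neg hc, smul_zero]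
    rw [finsum_congr e1, ← smul_finsum, smul_eq_mul]
  rw [Finset.sum_congr rfl fun α hα => Finset.sum_congr rfl fun β hβ => key α hα β hβ]
  simp_rw [← Finset.mul_sum]
  rw [← mul_assoc, mul_comm _ B⁻¹, mul_assoc, ← div_eq_inv_mul, le_div_iff₀ hBpos]
  exact hle

end Pool.Agent.H60.AV3B
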